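import Pool.Agent.Helper67.RG.GStmts

namespace Pool.Agent.Helper17.RG

open Pool.Agent.Helper67.RG

/-- Nullstellensatz: maximal ideals are kernels of points -/
lemma exists_point {A : Type} [CommRing A] [Algebra ℂ A] [Algebra.FiniteType ℂ A] (m : Ideal A)
    (hm : m.IsMaximal) : ∃ b : A →ₐ[ℂ] ℂ, RingHom.ker b = m := by
  let _ : Field (A ⧸ m) := Ideal.Quotient.field m
  have _ : Algebra.FiniteType ℂ (A ⧸ m) :=
    Algebra.FiniteType.of_surjective (Ideal.Quotient.mkₐ ℂ m) Ideal.Quotient.mk_surjective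
  have _ : Module.Finite ℂ (A ⧸ m) := finite_of_finite_type_of_isJacobsonRing ℂ (A ⧸ m)
  have hbij : Function.Bijective (algebraMap ℂ (A ⧸ m)) :=
    IsAlgClosed.algebraMap_bijective_of_isIntegral
  let e : ℂ ≃ₐ[ℂ] (A ⧸ m) := AlgEquiv.ofBijective (Algebra.ofId ℂ (A ⧸ m)) hbij
  refine ⟨(e.symm : (A ⧸ m) →ₐ[ℂ] ℂ).comp (Ideal.Quotient.mkₐ ℂ m), ?_⟩
  ext a
  rw [RingHom.mem_ker]
  constructor
  · intro h
    have h1 : e.symm (Ideal.Quotient.mk m a) = 0 := h
    rw [map_eq_zero_iff _ e.symm.injective] at h1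
    exact Ideal.Quotient.eq_zero_iff_mem.1 h1
  · intro h
    have h1 : e.symm (Ideal.Quotient.mk m a) = 0 := by
      rw [Ideal.Quotient.eq_zero_iff_mem.2 h, map_zero]
    exact h1

lemma eq_zero_of_points {A : Type} [CommRing A] [IsDomain A] [Algebra ℂ A]
    [Algebra.FiniteType ℂ A] (a f : A) (hf : f ≠ 0)
    (h : ∀ b : A →ₐ[ℂ] ℂ, b f ≠ 0 → b a = 0) : a = 0 := by
  have h1 : a * f ∈ Ideal.jacobson (⊥ : Ideal A) := by
    rw [Ideal.mem_jacobson_bot]
    intro y
    by_contra hu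
    obtain ⟨m, hm, hmem⟩ := exists_max_ideal_of_mem_nonunits hu
    obtain ⟨b, hb⟩ := exists_point m hm
    rw [← hb, RingHom.mem_ker] at hmem
    have h2 : b (a * f) = 0 := by
      rw [map_mul]
      by_cases hbf : b f = 0
      · rw [hbf, mul_zero]
      · rw [h b hbf, zero_mul]
    have h3 : b (a * f * y + 1) = 1 := by rw [map_add, map_mul, h2, zero_mul, zero_add, map_one]
    have h4 : b (a * f * y + 1) = 0 := hmem
    rw [h3] at h4
    exact one_ne_zero h4
  have hJ : IsJacobsonRing A := isJacobsonRing_of_finiteType (A := ℂ)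
  have h2 : Ideal.jacobson (⊥ : Ideal A) = ⊥ := hJ.out Ideal.isPrime_bot.isRadical
  rw [h2, Ideal.mem_bot] at h1
  exact (mul_eq_zero.1 h1).resolve_right hf

section minors

/-- independent columns have a nonzero minor -/
lemma exists_minor {n r : ℕ} (w : Fin r → Fin n → ℂ) (h : LinearIndependent ℂ w) :
    ∃ s : Fin r → Fin n, (Matrix.of fun i j => w j (s i)).det ≠ 0 := by
  classical
  set M : Matrix (Fin n) (Fin r) ℂ := Matrix.of fun i j => w j i with hM
  have h1 : M.transpose.rank = Fintype.card (Fin r) := LinearIndependent.rank_matrix h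
  rw [Matrix.rank_transpose, Matrix.rank_eq_finrank_span_row, Fintype.card_fin] at h1
  obtain ⟨f, hf, -, hind⟩ := Submodule.exists_fun_fin_finrank_span_eq ℂ (Set.range M.row)
  choose t ht using hf
  refine ⟨fun i => t (Fin.cast h1.symm i), ?_⟩
  rw [← isUnit_iff_ne_zero, ← Matrix.isUnit_iff_isUnit_det,
    ← Matrix.linearIndependent_rows_iff_isUnit]
  have h2 : (Matrix.of fun i j => w j (t (Fin.cast h1.symm i))).row = f ∘ (Fin.cast h1.symm) := by
    funext i
    change _ = f (Fin.cast h1.symm i)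
    rw [← ht]
    rfl
  rw [h2]
  exact hind.comp _ (Fin.cast_injective _)

/-- vectors with a nonzero minor are independent -/
lemma indep_of_minor {V : Type*} [AddCommGroup V] [Module ℂ V] {n r : ℕ} (φ : V →ₗ[ℂ] (Fin n → ℂ))
    (w : Fin r → V) (s : Fin r → Fin n) (h : (Matrix.of fun i j => φ (w j) (s i)).det ≠ 0) :
    LinearIndependent ℂ w := by
  rw [Fintype.linearIndependent_iff]
  intro x hx
  have h1 : (Matrix.of fun i j => φ (w j) (s i)).mulVec x = 0 := by
    funext i
    have h2 := congrArg (fun v => φ v (s i)) hx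
    simp only [map_sum, map_smul, map_zero, Finset.sum_apply, Pi.smul_apply, Pi.zero_apply,
      smul_eq_mul] at h2
    rw [Matrix.mulVec, dotProduct, Pi.zero_apply, ← h2]
    exact Finset.sum_congr rfl fun j _ => mul_comm _ _
  exact congrFun (Matrix.eq_zero_of_mulVec_eq_zero h h1)

end minors

section FMs

variable {A : Type} [CommRing A] [Algebra ℂ A] {P : Type} [AddCommGroup P] [Module A P]

lemma fm_finite [Module.Finite A P] (F : FM A P) (b : A →ₐ[ℂ] ℂ) : Module.Finite ℂ (F.V b) := by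
  classical
  obtain ⟨S, hS⟩ := Module.Finite.fg_top (R := A) (M := P)
  refine ⟨⟨S.image (F.pi b), ?_⟩⟩
  rw [eq_top_iff]
  rintro y -
  obtain ⟨p, rfl⟩ := F.surj b y
  have hp : p ∈ Submodule.span A (S : Set P) := by rw [hS]; trivial
  induction hp using Submodule.span_induction with
  | mem x hx =>
    apply Submodule.subset_span
    rw [Finset.coe_image]
    exact ⟨x, hx, rfl⟩
  | zero => rw [map_zero]; exact Submodule.zero_mem _
  | add x y _ _ hx hy => rw [map_add]; exact Submodule.add_mem _ hx hy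
  | smul a x _ hx => rw [F.pi_smul]; exact Submodule.smul_mem _ _ hx

/-- coordinates for the fibres of a finite projective module -/
structure Crd (F : FM A P) where
  n : ℕ
  g : P →ₗ[A] (Fin n → A)
  f : (Fin n → A) →ₗ[A] P
  fg : ∀ p, f (g p) = p
  ib : ∀ b, F.V b →ₗ[ℂ] (Fin n → ℂ)
  hib : ∀ b p j, ib b (F.pi b p) j = b (g p j)
  fb : ∀ b, (Fin n → ℂ) →ₗ[ℂ] F.V b
  hfb : ∀ b j, fb b (Pi.single j 1) = F.pi b (f (Pi.single j 1))
  left : ∀ b y, fb b (ib b y) = y

lemma crd_key {n : ℕ} (g : P →ₗ[A] (Fin n → A)) (b : A →ₐ[ℂ] ℂ) (p : P)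
    (hp : p ∈ RingHom.ker b • (⊤ : Submodule A P)) (j : Fin n) : b (g p j) = 0 := by
  induction hp using Submodule.smul_induction_on' with
  | smul a ha x _ =>
    rw [map_smul, Pi.smul_apply, smul_eq_mul, map_mul, RingHom.mem_ker.1 ha, zero_mul]
  | add x _ y _ hx hy =>
    rw [map_add, Pi.add_apply, map_add, hx, hy, add_zero]

lemma crd_exists [Module.Finite A P] [Module.Projective A P] (F : FM A P) : Nonempty (Crd F) := by
  obtain ⟨n, f, g, -, -, hfg⟩ := Module.Finite.exists_comp_eq_id_of_projective A P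
  have hfg' : ∀ p, f (g p) = p := fun p => LinearMap.congr_fun hfg p
  have key : ∀ b p p', F.pi b p = F.pi b p' → ∀ j, b (g p j) = b (g p' j) := by
    intro b p p' h j
    have h1 : F.pi b (p - p') = 0 := by rw [map_sub, h, sub_self]
    have h2 := crd_key g b _ (F.ker b _ h1) j
    rw [map_sub, Pi.sub_apply, map_sub] at h2
    exact sub_eq_zero.1 h2
  choose σ hσ using F.surj
  let ib : ∀ b, F.V b →ₗ[ℂ] (Fin n → ℂ) := fun b =>
    { toFun := fun y j => b (g (σ b y) j)
      map_add' := by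
        intro y z
        funext j
        have h := key b (σ b (y + z)) (σ b y + σ b z) (by rw [map_add, hσ, hσ, hσ]) j
        rw [h, map_add, Pi.add_apply, map_add]
        rfl
      map_smul' := by
        intro c y
        funext j
        have h := key b (σ b (c • y)) ((algebraMap ℂ A c) • σ b y)
          (by rw [F.pi_smul, hσ, hσ, AlgHom.commutes]; rfl) j
        rw [h, map_smul, Pi.smul_apply, smul_eq_mul, map_mul, AlgHom.commutes]
        rfl }
  have hib : ∀ b p j, ib b (F.pi b p) j = b (g p j) := fun b p j => key b _ _ (hσ b _) j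
  let fb : ∀ b, (Fin n → ℂ) →ₗ[ℂ] F.V b := fun b =>
    Fintype.linearCombination ℂ (fun j => F.pi b (f (Pi.single j 1)))
  have hfbs : ∀ b x, fb b x = ∑ j, x j • F.pi b (f (Pi.single j 1)) := fun b x => rfl
  refine ⟨⟨n, g, f, hfg', ib, hib, fb, ?_, ?_⟩⟩
  · intro b j
    rw [hfbs, Finset.sum_eq_single j]
    · rw [Pi.single_eq_same, one_smul]
    · intro k _ hk
      rw [Pi.single_eq_of_ne hk, zero_smul]
    · intro h; exact absurd (Finset.mem_univ _) h
  · intro b y
    obtain ⟨p, rfl⟩ := F.surj b y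
    rw [hfbs]
    have h1 : p = ∑ j, (g p j) • f (Pi.single j 1) := by
      conv_lhs => rw [← hfg' p, pi_eq_sum_univ' (g p), map_sum]
      exact Finset.sum_congr rfl fun j _ => map_smul _ _ _
    conv_rhs => rw [h1, map_sum]
    exact Finset.sum_congr rfl fun j _ => by rw [F.pi_smul, hib]

variable {F : FM A P}

lemma crd_inj (K : Crd F) (b : A →ₐ[ℂ] ℂ) : Function.Injective (K.ib b) :=
  Function.LeftInverse.injective (K.left b)

/-- the dimension of the fibres is the value of the trace -/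
lemma crd_trace [Module.Finite A P] (K : Crd F) : ∃ τ : A, ∀ b : A →ₐ[ℂ] ℂ,
    ((Module.finrank ℂ (F.V b) : ℕ) : ℂ) = b τ ∧ Module.finrank ℂ (F.V b) ≤ K.n := by
  refine ⟨∑ j, K.g (K.f (Pi.single j 1)) j, fun b => ⟨?_, ?_⟩⟩
  · have _ := fm_finite F b
    rw [← LinearMap.trace_id ℂ (F.V b)]
    have h1 : (LinearMap.id : F.V b →ₗ[ℂ] F.V b) = K.fb b ∘ₗ K.ib b := by
      ext y; exact (K.left b y).symm
    rw [h1, LinearMap.trace_comp_comm', LinearMap.trace_eq_matrix_trace ℂ (Pi.basisFun ℂ (Fin K.n)),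
      Matrix.trace, map_sum]
    apply Finset.sum_congr rfl
    intro j _
    rw [Matrix.diag_apply, LinearMap.toMatrix_apply, Pi.basisFun_apply, LinearMap.comp_apply,
      K.hfb, Pi.basisFun_repr, K.hib]
  · have h2 := LinearMap.finrank_le_finrank_of_injective (crd_inj K b)
    rwa [Module.finrank_fin_fun] at h2

/-- the dimension of the fibres is constant -/
lemma finrank_const [IsDomain A] [Algebra.FiniteType ℂ A] [Module.Finite A P]
    [Module.Projective A P] (F : FM A P) :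
    ∃ N : ℕ, ∀ b : A →ₐ[ℂ] ℂ, Module.finrank ℂ (F.V b) = N := by
  obtain ⟨K⟩ := crd_exists F
  obtain ⟨τ, hτ⟩ := crd_trace K
  have h1 : ∏ j ∈ Finset.range (K.n + 1), (τ - algebraMap ℂ A j) = 0 := by
    apply eq_zero_of_points _ 1 one_ne_zero
    intro b _
    rw [map_prod]
    apply Finset.prod_eq_zero (Finset.mem_range.2 (Nat.lt_succ_of_le (hτ b).2))
    rw [map_sub, ← (hτ b).1, AlgHom.commutes]
    simp
  rw [Finset.prod_eq_zero_iff] at h1
  obtain ⟨j, -, hj⟩ := h1
  refine ⟨j, fun b => ?_⟩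
  have h2 := (hτ b).1
  rw [sub_eq_zero.1 hj, AlgHom.commutes] at h2
  have h3 : ((Module.finrank ℂ (F.V b) : ℕ) : ℂ) = ((j : ℕ) : ℂ) := h2
  exact_mod_cast h3

/-- minors of a family of elements -/
def mnr (K : Crd F) {r : ℕ} (w : Fin r → P) (s : Fin r → Fin K.n) : Matrix (Fin r) (Fin r) A :=
  Matrix.of fun i j => K.g (w j) (s i)

lemma mnr_map (K : Crd F) {r : ℕ} (w : Fin r → P) (s : Fin r → Fin K.n) (b : A →ₐ[ℂ] ℂ) :
    b (mnr K w s).det = (Matrix.of fun i j => K.ib b (F.pi b (w j)) (s i)).det := by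
  rw [AlgHom.map_det]
  congr 1
  ext i j
  simp [mnr, K.hib]

lemma exists_mnr (K : Crd F) {r : ℕ} (w : Fin r → P) (b0 : A →ₐ[ℂ] ℂ)
    (h : LinearIndependent ℂ (fun j => F.pi b0 (w j))) :
    ∃ s : Fin r → Fin K.n, b0 (mnr K w s).det ≠ 0 := by
  have h1 : LinearIndependent ℂ (fun j => K.ib b0 (F.pi b0 (w j))) :=
    h.map' (K.ib b0) (LinearMap.ker_eq_bot.2 (crd_inj K b0))
  obtain ⟨s, hs⟩ := exists_minor _ h1
  exact ⟨s, by rw [mnr_map]; exact hs⟩

lemma indep_of_mnr (K : Crd F) {r : ℕ} (w : Fin r → P) (s : Fin r → Fin K.n) (b : A →ₐ[ℂ] ℂ)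
    (h : b (mnr K w s).det ≠ 0) : LinearIndependent ℂ (fun j => F.pi b (w j)) := by
  rw [mnr_map] at h
  exact indep_of_minor (K.ib b) _ s h

end FMs

end Pool.Agent.Helper17.RG
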