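import Pool.Agent.Helper17.RG.Base

namespace Pool.Agent.Helper17.RG

open Pool.Agent.Helper67.RG

lemma exists_lift_range {V W : Type} [AddCommGroup V] [Module ℂ V] [AddCommGroup W] [Module ℂ W]
    [Module.Finite ℂ V] (φ : V →ₗ[ℂ] W) : ∃ w : Fin (Module.finrank ℂ (LinearMap.range φ)) → V,
    LinearIndependent ℂ (fun j => φ (w j)) := by
  let B := Module.finBasis ℂ (LinearMap.range φ)
  have h : ∀ j, ∃ x, φ x = (B j : W) := fun j => (B j).2
  choose w hw using h
  refine ⟨w, ?_⟩
  have h2 : (fun j => φ (w j)) = fun j => ((LinearMap.range φ).subtype (B j)) := by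
    funext j; rw [hw]; rfl
  rw [h2]
  exact B.linearIndependent.map' _ (Submodule.ker_subtype _)

lemma card_le_range {V W : Type} [AddCommGroup V] [Module ℂ V] [AddCommGroup W] [Module ℂ W]
    [Module.Finite ℂ V] (φ : V →ₗ[ℂ] W) {r : ℕ} (w : Fin r → V)
    (h : LinearIndependent ℂ (fun j => φ (w j))) : r ≤ Module.finrank ℂ (LinearMap.range φ) := by
  have h1 : LinearIndependent ℂ (fun j => (⟨φ (w j), ⟨w j, rfl⟩⟩ : LinearMap.range φ)) := by
    apply LinearIndependent.of_comp (LinearMap.range φ).subtype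
    exact h
  have := h1.fintype_card_le_finrank
  rwa [Fintype.card_fin] at this

theorem st_SEMI : ST_SEMI := by
  intro A _ _ _ _ P Q _ _ _ _ _ _ _ _ FP FQ α αb hα b0
  obtain ⟨N, hN⟩ := finrank_const FP
  obtain ⟨KQ⟩ := crd_exists FQ
  have hfin := fm_finite FP
  obtain ⟨w, hw⟩ := exists_lift_range (αb b0)
  have hl : ∀ j, ∃ p, FP.pi b0 p = w j := fun j => FP.surj b0 (w j)
  choose p hp using hl
  have hw' : LinearIndependent ℂ (fun j => FQ.pi b0 (α (p j))) := by
    have : (fun j => FQ.pi b0 (α (p j))) = fun j => αb b0 (w j) := by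
      funext j; rw [← hα, hp]
    rw [this]; exact hw
  obtain ⟨s, hs⟩ := exists_mnr KQ (fun j => α (p j)) b0 hw'
  refine ⟨_, hs, fun b hb => ⟨hfin b, ?_⟩⟩
  have h1 := indep_of_mnr KQ (fun j => α (p j)) s b hb
  have h2 : LinearIndependent ℂ (fun j => αb b (FP.pi b (p j))) := by
    have : (fun j => αb b (FP.pi b (p j))) = fun j => FQ.pi b (α (p j)) := by
      funext j; rw [← hα]
    rw [this]; exact h1
  have h3 := card_le_range (αb b) _ h2
  have h4 := LinearMap.finrank_range_add_finrank_ker (αb b)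
  have h5 := LinearMap.finrank_range_add_finrank_ker (αb b0)
  rw [hN] at h4 h5
  omega

theorem st_RANK : ST_RANK := by
  intro A _ _ _ _ P Q _ _ _ _ _ _ _ _ FP FQ α αb hα b0 f0 hf0 hker k v hv hspan
  obtain ⟨N, hN⟩ := finrank_const FP
  obtain ⟨KQ⟩ := crd_exists FQ
  obtain ⟨KP⟩ := crd_exists FP
  have hfin := fm_finite FP
  obtain ⟨r, hr, w, hw⟩ : ∃ r, r = Module.finrank ℂ (LinearMap.range (αb b0)) ∧
      ∃ w : Fin r → FP.V b0, LinearIndependent ℂ (fun j => αb b0 (w j)) :=
    ⟨_, rfl, exists_lift_range (αb b0)⟩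
  have hl : ∀ j, ∃ p, FP.pi b0 p = w j := fun j => FP.surj b0 (w j)
  choose p hp using hl
  have hw' : LinearIndependent ℂ (fun j => FQ.pi b0 (α (p j))) := by
    have : (fun j => FQ.pi b0 (α (p j))) = fun j => αb b0 (w j) := by
      funext j; rw [← hα, hp]
    rw [this]; exact hw
  obtain ⟨s, hs⟩ := exists_mnr KQ (fun j => α (p j)) b0 hw'
  set D := mnr KQ (fun j => α (p j)) s with hD
  have hk : Module.finrank ℂ (LinearMap.ker (αb b0)) = k := by
    rw [← hspan, finrank_span_eq_card hv, Fintype.card_fin]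
  have hNrk : r + k = N := by
    have h5 := LinearMap.finrank_range_add_finrank_ker (αb b0)
    rw [hN, hk, ← hr] at h5
    exact h5
  -- the correction
  let x : P → Fin r → A := fun q i => KQ.g (α q) (s i)
  let c : P → Fin r → A := fun q => D.adjugate.mulVec (x q)
  let vv : P → P := fun q => D.det • q - ∑ j, c q j • p j
  have hcoord : ∀ q i, KQ.g (α (vv q)) (s i) = 0 := by
    intro q i
    simp only [vv, map_sub, map_smul, map_sum, Pi.sub_apply, Pi.smul_apply, Finset.sum_apply,
      smul_eq_mul]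
    have h1 : ∑ j, c q j * KQ.g (α (p j)) (s i) = (D.mulVec (c q)) i := by
      rw [Matrix.mulVec, dotProduct]
      exact Finset.sum_congr rfl fun j _ => mul_comm _ _
    rw [h1]
    simp only [c]
    rw [Matrix.mulVec_mulVec, Matrix.mul_adjugate, Matrix.smul_mulVec, Matrix.one_mulVec,
      Pi.smul_apply, smul_eq_mul]
    exact sub_self _
  -- span of the image
  have himg : ∀ b : A →ₐ[ℂ] ℂ, b (D.det * f0) ≠ 0 → ∀ q, αb b (FP.pi b (vv q)) = 0 := by
    intro b hb q
    rw [map_mul] at hb
    have hb1 := left_ne_zero_of_mul hb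
    have hb2 := right_ne_zero_of_mul hb
    have h1 := indep_of_mnr KQ (fun j => α (p j)) s b hb1
    have h2 : LinearIndependent ℂ (fun j => αb b (FP.pi b (p j))) := by
      have : (fun j => αb b (FP.pi b (p j))) = fun j => FQ.pi b (α (p j)) := by
        funext j; rw [← hα]
      rw [this]; exact h1
    have h4 := LinearMap.finrank_range_add_finrank_ker (αb b)
    have h5 := hker b hb2
    rw [hN] at h4
    rw [hk] at h5
    have h6 : Submodule.span ℂ (Set.range fun j => αb b (FP.pi b (p j))) =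
        LinearMap.range (αb b) := by
      apply Submodule.eq_of_le_of_finrank_le
      · rw [Submodule.span_le]
        rintro _ ⟨j, rfl⟩
        exact ⟨_, rfl⟩
      · rw [finrank_span_eq_card h2, Fintype.card_fin]
        omega
    have h7 : αb b (FP.pi b (vv q)) ∈ Submodule.span ℂ
        (Set.range fun j => αb b (FP.pi b (p j))) := by
      rw [h6]; exact ⟨_, rfl⟩
    rw [Submodule.mem_span_range_iff_exists_fun] at h7
    obtain ⟨y, hy⟩ := h7
    have h8 : (Matrix.of fun i j => KQ.ib b (FQ.pi b (α (p j))) (s i)).mulVec y = 0 := by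
      funext i
      have h9 := congrArg (fun z => KQ.ib b z (s i)) hy
      simp only [map_sum, map_smul, Finset.sum_apply, Pi.smul_apply, smul_eq_mul] at h9
      have h10 : KQ.ib b (αb b (FP.pi b (vv q))) (s i) = 0 := by
        rw [hα, KQ.hib, hcoord, map_zero]
      rw [h10] at h9
      rw [Matrix.mulVec, dotProduct, Pi.zero_apply, ← h9]
      apply Finset.sum_congr rfl
      intro j _
      rw [Matrix.of_apply, hα, mul_comm]
    have h11 : y = 0 := by
      rw [hD, mnr_map] at hb1
      exact Matrix.eq_zero_of_mulVec_eq_zero hb1 h8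
    rw [← hy, h11]
    simp
  have hδ0 : D.det ≠ 0 := fun h => hs (by rw [h, map_zero])
  have hf00 : f0 ≠ 0 := fun h => hf0 (by rw [h, map_zero])
  have hzero : ∀ q, α (vv q) = 0 := by
    intro q
    rw [← KQ.fg (α (vv q))]
    have : KQ.g (α (vv q)) = 0 := by
      funext j
      apply eq_zero_of_points _ (D.det * f0) (mul_ne_zero hδ0 hf00)
      intro b hb
      rw [← KQ.hib, ← hα, himg b hb, map_zero]
      rfl
    rw [this, map_zero]
  -- the kernel vectors
  have hl' : ∀ i, ∃ q, FP.pi b0 q = v i := fun i => FP.surj b0 (v i)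
  choose p' hp' using hl'
  have hb0D : b0 D.det ≠ 0 := hs
  set V : Fin k → P := fun i => (algebraMap ℂ A (b0 D.det)⁻¹) • vv (p' i) with hV
  have hc0 : ∀ i j, b0 (c (p' i) j) = 0 := by
    intro i j
    simp only [c, Matrix.mulVec, dotProduct, map_sum, map_mul]
    apply Finset.sum_eq_zero
    intro l _
    have h1 : b0 (x (p' i) l) = 0 := by
      simp only [x]
      rw [← KQ.hib, ← hα, hp']
      have h2 : v i ∈ LinearMap.ker (αb b0) := by
        rw [← hspan]; exact Submodule.subset_span ⟨i, rfl⟩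
      rw [LinearMap.mem_ker.1 h2, map_zero]
      rfl
    rw [h1, mul_zero]
  have hV0 : ∀ i, FP.pi b0 (V i) = v i := by
    intro i
    simp only [hV, vv]
    rw [FP.pi_smul, AlgHom.commutes, map_sub, FP.pi_smul, map_sum, hp']
    have h1 : ∑ j, FP.pi b0 (c (p' i) j • p j) = 0 := by
      apply Finset.sum_eq_zero
      intro j _
      rw [FP.pi_smul, hc0, zero_smul]
    rw [h1, sub_zero, smul_smul]
    change ((b0 D.det)⁻¹ * b0 D.det) • v i = v i
    rw [inv_mul_cancel₀ hb0D, one_smul]
  have hVz : ∀ i, α (V i) = 0 := by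
    intro i
    simp only [hV]
    rw [map_smul, hzero, smul_zero]
  have hVind : LinearIndependent ℂ (fun i => FP.pi b0 (V i)) := by
    have : (fun i => FP.pi b0 (V i)) = v := by funext i; exact hV0 i
    rw [this]; exact hv
  obtain ⟨s', hs'⟩ := exists_mnr KP V b0 hVind
  refine ⟨D.det * f0 * (mnr KP V s').det, V, ?_, hVz, hV0, ?_⟩
  · rw [map_mul, map_mul]
    exact mul_ne_zero (mul_ne_zero hb0D hf0) hs'
  · intro b hb
    rw [map_mul, map_mul] at hb
    have hb3 := right_ne_zero_of_mul hb
    have hb1 := left_ne_zero_of_mul (left_ne_zero_of_mul hb)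
    have hi := indep_of_mnr KP V s' b hb3
    refine ⟨hi, ?_⟩
    have h1 := indep_of_mnr KQ (fun j => α (p j)) s b hb1
    have h2 : LinearIndependent ℂ (fun j => αb b (FP.pi b (p j))) := by
      have : (fun j => αb b (FP.pi b (p j))) = fun j => FQ.pi b (α (p j)) := by
        funext j; rw [← hα]
      rw [this]; exact h1
    have h3 := card_le_range (αb b) _ h2
    have h4 := LinearMap.finrank_range_add_finrank_ker (αb b)
    rw [hN] at h4
    apply Submodule.eq_of_le_of_finrank_le
    · rw [Submodule.span_le]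
      rintro _ ⟨i, rfl⟩
      rw [SetLike.mem_coe, LinearMap.mem_ker, hα, hVz, map_zero]
    · rw [finrank_span_eq_card hi, Fintype.card_fin]
      omega

end Pool.Agent.Helper17.RG
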